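import Pool.Agent.Helper68.VN.GoalsT
import Pool.Agent.Helper56.SG2.LOCT

/-!
# Project PG (MP_a41896_nt), packet PG-LOCB: the local estimate

Adapted from `Pool/Agent/Helper56/SG2/LOCT.lean` (helper56).
-/

set_option autoImplicit false

open MvPolynomial

namespace Pool.Agent.Helper31.VN.LOCB

open WeierstrassCurve Height
open Pool.Agent.Helper29.BL Pool.Agent.Helper92.Ru Pool.Agent.Helper42.SG
open Pool.Agent.Helper68.VN
open Pool.Agent.Helper56.SG2 (plc_pos plc_one plc_mul plc_pow)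

/-- one variable -/
theorem one_var (M q : ℕ) (hq : 1 ≤ q) (b B x y lo w : ℝ) (hb : 1 ≤ b) (hB : 1 ≤ B)
    (hx : 1 ≤ x) (hy : 1 ≤ y) (hlo : 0 ≤ lo) (hw : 1 ≤ w)
    (h : x ^ (2 * q) * y ^ 2 ≤ B ^ q * lo * w) :
    (b * x) ^ (2 * q * M + q + 2) * y ^ (2 * M) ≤
      (b ^ (2 * M + 3) * B ^ M) ^ q * ((lo ^ M * x ^ (q + 2)) * w ^ M) := by
  have e1 : (b * x) ^ (2 * q * M + q + 2) * y ^ (2 * M) =
      b ^ (2 * q * M + q + 2) * (x ^ (2 * q) * y ^ 2) ^ M * x ^ (q + 2) := by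
    ring
  have e2 : (b ^ (2 * M + 3) * B ^ M) ^ q * ((lo ^ M * x ^ (q + 2)) * w ^ M) =
      b ^ ((2 * M + 3) * q) * (B ^ q * lo * w) ^ M * x ^ (q + 2) := by
    ring
  have h3 : b ^ (2 * q * M + q + 2) ≤ b ^ ((2 * M + 3) * q) := by
    apply pow_le_pow_right₀ hb
    nlinarith
  rw [e1, e2]
  gcongr

/-- one block -/
theorem one_blk {σ : Type} [Fintype σ] (M q k : ℕ) (hq : 1 ≤ q) (b B rho : ℝ)
    (x y lo w : σ → ℝ) (hb : 1 ≤ b) (hB : 1 ≤ B) (hrho : 0 < rho)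
    (hx : ∀ i, 1 ≤ x i) (hy : ∀ i, 1 ≤ y i) (hlo : ∀ i, 0 ≤ lo i) (hw : ∀ i, 1 ≤ w i)
    (h : ∀ i, x i ^ (2 * q) * y i ^ 2 ≤ B ^ q * lo i * w i) :
    ((∏ i, b * x i) ^ (2 * q * M + q + 2) * rho ^ k) * ∏ i, y i ^ (2 * M) ≤
      ((b ^ (2 * M + 3) * B ^ M) ^ Fintype.card σ) ^ q *
        ((∏ i, lo i ^ M * x i ^ (q + 2)) * (rho ^ k * ∏ i, w i ^ M)) := by
  have h1 : ∏ i, ((b * x i) ^ (2 * q * M + q + 2) * y i ^ (2 * M)) ≤
      ∏ i, ((b ^ (2 * M + 3) * B ^ M) ^ q * ((lo i ^ M * x i ^ (q + 2)) * w i ^ M)) := by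
    apply Finset.prod_le_prod
    · intro i _
      have := hx i
      have := hy i
      positivity
    · intro i _
      exact one_var M q hq b B (x i) (y i) (lo i) (w i) hb hB (hx i) (hy i) (hlo i) (hw i) (h i)
  rw [Finset.prod_mul_distrib, Finset.prod_mul_distrib, Finset.prod_const,
    Finset.card_univ, Finset.prod_mul_distrib (f := fun i => lo i ^ M * x i ^ (q + 2)),
    Finset.prod_pow] at h1
  have h2 := mul_le_mul_of_nonneg_right h1 (pow_nonneg hrho.le k)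
  calc ((∏ i, b * x i) ^ (2 * q * M + q + 2) * rho ^ k) * ∏ i, y i ^ (2 * M)
      = ((∏ i, b * x i) ^ (2 * q * M + q + 2) * ∏ i, y i ^ (2 * M)) * rho ^ k := by ring
    _ ≤ _ := h2
    _ = _ := by ring

/-- all blocks -/
theorem all_blk {σ : Type} [Fintype σ] {n : ℕ} (M δ k0 : ℕ) (e : Fin n → ℕ) (b B : ℝ)
    (rho : Fin n → ℝ) (x lo w : Fin n → σ → ℝ) (y : σ → ℝ) (hb : 1 ≤ b) (hB : 1 ≤ B)
    (hrho : ∀ j, 0 < rho j)
    (hx : ∀ j i, 1 ≤ x j i) (hy : ∀ i, 1 ≤ y i) (hlo : ∀ j i, 0 ≤ lo j i)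
    (hw : ∀ j i, 1 ≤ w j i)
    (h : ∀ j i, x j i ^ (2 * 4 ^ e j) * y i ^ 2 ≤ B ^ (4 ^ e j) * lo j i * w j i) :
    (∏ j, ((∏ i, b * x j i) ^ (2 * 4 ^ e j * M + 4 ^ e j + 2) * rho j ^ (k0 * 4 ^ e j))) *
      (∏ i, y i ^ (2 * n * M + δ)) ≤
      ((b ^ (2 * M + 3) * B ^ M) ^ Fintype.card σ) ^ sqB e *
        ((∏ j, ∏ i, lo j i ^ M * x j i ^ (4 ^ e j + 2)) *
          ((∏ j, rho j ^ (k0 * 4 ^ e j)) * (∏ j, ∏ i, w j i ^ M))) * ∏ i, y i ^ δ := by
  have h0 : ∏ j, (((∏ i, b * x j i) ^ (2 * 4 ^ e j * M + 4 ^ e j + 2) *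
      rho j ^ (k0 * 4 ^ e j)) * ∏ i, y i ^ (2 * M)) ≤
      ∏ j, (((b ^ (2 * M + 3) * B ^ M) ^ Fintype.card σ) ^ (4 ^ e j) *
        ((∏ i, lo j i ^ M * x j i ^ (4 ^ e j + 2)) *
          (rho j ^ (k0 * 4 ^ e j) * ∏ i, w j i ^ M))) := by
    apply Finset.prod_le_prod
    · intro j _
      have h1 : 0 ≤ ∏ i, b * x j i := Finset.prod_nonneg fun i _ => by
        have := hx j i
        positivity
      have h2 : 0 ≤ ∏ i, y i ^ (2 * M) := Finset.prod_nonneg fun i _ => by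
        have := hy i
        positivity
      have := hrho j
      positivity
    · intro j _
      exact one_blk M (4 ^ e j) (k0 * 4 ^ e j) (Nat.one_le_pow _ _ (by norm_num)) b B (rho j)
        (x j) y (lo j) (w j) hb hB (hrho j) (hx j) hy (hlo j) (hw j) (h j)
  rw [Finset.prod_mul_distrib, Finset.prod_const, Finset.card_univ, Fintype.card_fin,
    Finset.prod_mul_distrib (f := fun j => ((b ^ (2 * M + 3) * B ^ M) ^ Fintype.card σ) ^
      (4 ^ e j)), Finset.prod_pow_eq_pow_sum,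
    Finset.prod_mul_distrib (f := fun j => ∏ i, lo j i ^ M * x j i ^ (4 ^ e j + 2)),
    Finset.prod_mul_distrib (f := fun j => rho j ^ (k0 * 4 ^ e j))] at h0
  have h3 : ∏ i, y i ^ (2 * n * M + δ) = (∏ i, y i ^ (2 * M)) ^ n * ∏ i, y i ^ δ := by
    rw [← Finset.prod_pow, ← Finset.prod_mul_distrib]
    refine Finset.prod_congr rfl fun i _ => ?_
    ring
  have h4 : 0 ≤ ∏ i, y i ^ δ := Finset.prod_nonneg fun i _ => by
    have := hy i
    positivity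
  rw [h3, ← mul_assoc]
  exact mul_le_mul_of_nonneg_right h0 h4

theorem Bf_map {K : Type} [Field K] {A : Type} [CommRing A] [Algebra K A] {σ : Type}
    (W : σ → Affine K) (i : σ) (x : K) :
    Bf (mapS A W i) (algebraMap K A x) = algebraMap K A (Bf (W i) x) := by
  simp only [Bf, mapS, map_b₂, map_b₄, map_b₆, map_add, map_mul, map_pow, map_ofNat]

/-- **LOCB** -/
theorem t_LOCB (hF : FRPS) : Pool.Agent.Helper68.VN.LOCB := by
  intro K _ _ σ _ _ W J f D n M δ k0 B B' B'' hn hB hB' hB''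
  refine ⟨fun v => B v * ((B' v ^ (2 * M + 3) * B'' v ^ M) ^ Fintype.card σ *
    B' v ^ (2 * Fintype.card σ)), ?_, ?_⟩
  · exact plc_mul hB (plc_mul (plc_pow (plc_mul (plc_pow hB' _) (plc_pow hB'' _)) _)
      (plc_pow hB' _))
  intro e c ξ ψ ω x0 ψ0 X Ψ α dl v r ρ s hKEY hTay hψ0 hc hr hρ hN hNf hψ0v h33 hcoef
  have hM : ∀ j i, 1 ≤ Mv v (ξ j i) := fun j i => one_le_Mv v _
  have hM0 : ∀ i, 1 ≤ Mv v (x0 i) := fun i => one_le_Mv v _
  have hb := hB'.one_le v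
  have hb0 : 0 < B' v := plc_pos hB' v
  have hB''1 := hB''.one_le v
  have hBv : 0 < B v := plc_pos hB v
  obtain ⟨hfr, hcauchy⟩ := hF K v (Fin n × σ) r hr
  have hon : OnB W X Ψ (cn (MvPowerSeries (Fin n × σ) K) x0) (cn _ ψ0) :=
    ⟨hTay.on, fun i => by
      unfold cn
      rw [Bf_map, ← hψ0 i, map_pow]⟩
  have hk := hKEY v (MvPowerSeries (Fin n × σ) K) _ hfr X Ψ
    (fun j i => B' v * Mv v (ξ j i)) ρ s (B' v) hon
    (fun j i => one_le_mul_of_one_le_of_one_le hb (hM j i)) hb hρ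
    (fun j i => (hN j i).1)
    (fun j i => hfr.mono _ _ _ (hN j i).2 (by
      have h1 := hM j i
      have h2 : 1 ≤ B' v ^ 2 := one_le_pow₀ hb
      have h3 : 0 ≤ B' v * Mv v (ξ j i) ^ 2 := by positivity
      calc B' v * Mv v (ξ j i) ^ 2 ≤ (B' v * Mv v (ξ j i) ^ 2) * B' v ^ 2 :=
            le_mul_of_one_le_right h3 h2
        _ = B' v * (B' v * Mv v (ξ j i)) ^ 2 := by ring))
    hψ0v hNf hc (fun j i => decide (1 < v (ω j i)))
  have hC := hcauchy _ _ α hk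
  have hcf := hcoef (fun j i => decide (1 < v (ω j i)))
  unfold PT at hcf
  rw [hcf, map_mul, map_prod] at hC
  have hnn := hfr.nonneg _ _ hk
  have hom : (∏ j, v (∏ i, if decide (1 < v (ω j i)) = true then ω j i ^ M else 1)) =
      ∏ j, ∏ i, Mv v (ω j i) ^ M := by
    refine Finset.prod_congr rfl fun j _ => ?_
    rw [map_prod]
    refine Finset.prod_congr rfl fun i _ => ?_
    by_cases h1 : 1 < v (ω j i)
    · simp only [h1, decide_true, if_true]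
      rw [map_pow]
      unfold Mv
      rw [max_eq_right h1.le]
    · simp only [h1, decide_false]
      unfold Mv
      rw [max_eq_left (not_lt.1 h1)]
      simp
  rw [hom] at hC
  have e2 : rpw r α = (∏ h : Fin n × σ, (1 / r h) ^ (α h))⁻¹ := by
    unfold rpw
    rw [Finsupp.prod_fintype _ _ (fun i => pow_zero _), ← Finset.prod_inv_distrib]
    apply Finset.prod_congr rfl
    intro i _
    rw [one_div, inv_pow, inv_inv]
  rw [e2] at hC
  have hP : 0 < ∏ h : Fin n × σ, (1 / r h) ^ (α h) := by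
    apply Finset.prod_pos
    intro i _
    have := hr i
    positivity
  have hkey := all_blk M δ k0 e (B' v) (B'' v) ρ (fun j i => Mv v (ξ j i))
    (fun j i => max (v (lawP W e false ξ ψ x0 ψ0 j i).1) (v (lawP W e false ξ ψ x0 ψ0 j i).2))
    (fun j i => Mv v (ω j i)) (fun i => Mv v (x0 i)) hb hB''1 (fun j => (hρ j).1) hM hM0
    (fun j i => le_max_of_le_left (v.nonneg _)) (fun j i => one_le_Mv v _) h33
  have hO : 0 < ∏ j, ∏ i, Mv v (ω j i) ^ M := Finset.prod_pos fun j _ =>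
    Finset.prod_pos fun i _ => pow_pos (lt_of_lt_of_le one_pos (one_le_Mv v _)) _
  have hsq : n ≤ sqB e := by
    unfold sqB
    calc n = ∑ _j : Fin n, 1 := by simp
      _ ≤ ∑ j, 4 ^ e j := Finset.sum_le_sum fun j _ => Nat.one_le_pow _ _ (by norm_num)
  have hkpos : 0 < keyV v M δ k0 e (fun j i => B' v * Mv v (ξ j i)) ρ x0 := by
    unfold keyV
    apply mul_pos
    · apply Finset.prod_pos
      intro j _
      have h1 : 0 < ∏ i, B' v * Mv v (ξ j i) := Finset.prod_pos fun i _ => by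
        have := hM j i
        positivity
      have := (hρ j).1
      positivity
    · exact Finset.prod_pos fun i _ => by
        have := hM0 i
        positivity
  have hs : 0 ≤ s := by
    by_contra hlt
    push Not at hlt
    have : s * B' v ^ (2 * n * Fintype.card σ) * B v ^ sqB e *
        keyV v M δ k0 e (fun j i => B' v * Mv v (ξ j i)) ρ x0 < 0 := by
      have h1 : 0 < B' v ^ (2 * n * Fintype.card σ) * B v ^ sqB e *
        keyV v M δ k0 e (fun j i => B' v * Mv v (ξ j i)) ρ x0 := by positivity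
      calc s * B' v ^ (2 * n * Fintype.card σ) * B v ^ sqB e *
        keyV v M δ k0 e (fun j i => B' v * Mv v (ξ j i)) ρ x0 =
          s * (B' v ^ (2 * n * Fintype.card σ) * B v ^ sqB e *
        keyV v M δ k0 e (fun j i => B' v * Mv v (ξ j i)) ρ x0) := by ring
        _ < 0 := mul_neg_of_neg_of_pos hlt h1
    linarith
  unfold keyV at hC
  -- abbreviations
  obtain ⟨OO, hOO⟩ : ∃ OO, OO = ∏ j, ∏ i, Mv v (ω j i) ^ M := ⟨_, rfl⟩
  obtain ⟨PP, hPP⟩ : ∃ PP, PP = ∏ h : Fin n × σ, (1 / r h) ^ (α h) := ⟨_, rfl⟩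
  obtain ⟨YY, hYY⟩ : ∃ YY, YY = ∏ j, ∏ i, (max (v (lawP W e false ξ ψ x0 ψ0 j i).1)
          (v (lawP W e false ξ ψ x0 ψ0 j i).2)) ^ M * Mv v (ξ j i) ^ (4 ^ e j + 2) := ⟨_, rfl⟩
  obtain ⟨RR, hRR⟩ : ∃ RR, RR = ∏ j, ρ j ^ (k0 * 4 ^ e j) := ⟨_, rfl⟩
  obtain ⟨ZZ, hZZ⟩ : ∃ ZZ, ZZ = ∏ i, Mv v (x0 i) ^ δ := ⟨_, rfl⟩
  obtain ⟨KK, hKK⟩ : ∃ KK, KK = (∏ j, ((∏ i, B' v * Mv v (ξ j i)) ^
      (2 * 4 ^ e j * M + 4 ^ e j + 2) * ρ j ^ (k0 * 4 ^ e j))) *
      ∏ i, Mv v (x0 i) ^ (2 * n * M + δ) := ⟨_, rfl⟩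
  have hKp : 0 ≤ KK := by rw [hKK]; exact hkpos.le
  rw [← hOO, ← hPP, ← hKK] at hC
  rw [← hOO] at hO
  rw [← hPP] at hP
  rw [← hKK, ← hOO, ← hYY, ← hRR, ← hZZ] at hkey
  rw [← hYY, ← hRR, ← hZZ, ← hPP]
  have h3 : OO * v dl ≤ s * B' v ^ (2 * n * Fintype.card σ) * B v ^ sqB e * KK * PP := by
    have := mul_le_mul_of_nonneg_right hC hP.le
    rwa [mul_assoc, inv_mul_cancel₀ hP.ne', mul_one] at this
  have h5 : B' v ^ (2 * n * Fintype.card σ) ≤ (B' v ^ (2 * Fintype.card σ)) ^ sqB e := by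
    rw [← pow_mul]
    apply pow_le_pow_right₀ hb
    nlinarith [Nat.mul_le_mul_left (2 * Fintype.card σ) hsq]
  have hYp : 0 ≤ YY := by
    rw [hYY]
    exact Finset.prod_nonneg fun j _ => Finset.prod_nonneg fun i _ => by
      have h1 : 0 ≤ max (v (lawP W e false ξ ψ x0 ψ0 j i).1)
        (v (lawP W e false ξ ψ x0 ψ0 j i).2) := le_max_of_le_left (v.nonneg _)
      have := hM j i
      positivity
  have hRp : 0 ≤ RR := by
    rw [hRR]
    exact Finset.prod_nonneg fun j _ => pow_nonneg (hρ j).1.le _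
  have hZp : 0 ≤ ZZ := by
    rw [hZZ]
    exact Finset.prod_nonneg fun i _ => by
      have := hM0 i
      positivity
  refine le_of_mul_le_mul_left ?_ hO
  calc OO * v dl ≤ _ := h3
    _ ≤ s * (B' v ^ (2 * Fintype.card σ)) ^ sqB e * B v ^ sqB e *
        (((B' v ^ (2 * M + 3) * B'' v ^ M) ^ Fintype.card σ) ^ sqB e * (YY * (RR * OO)) * ZZ) *
          PP := by
      gcongr
    _ = _ := by
      rw [mul_pow (B v), mul_pow ((B' v ^ (2 * M + 3) * B'' v ^ M) ^ Fintype.card σ)]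
      ring

end Pool.Agent.Helper31.VN.LOCB
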