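import Pool.Agent.Helper68.VN.GoalsN
import Pool.Agent.Helper60.SG2.NZFT

/-!
# Project PG (MP_a41896_nt), packet PG-NZHB: nonvanishing at a given reference point
-/

set_option autoImplicit false

namespace Pool.Agent.Helper31.VN.NZHB

open WeierstrassCurve
open Pool.Agent.Helper29.BL Pool.Agent.Helper92.Ru Pool.Agent.Helper42.SG
open Pool.Agent.Helper68.VN Pool.Agent.Helper60.SG2

/-- the successive choice of the points, any finite type of variables -/
theorem choiceV (Ω : Type) [Field Ω] (V : Type) [Fintype V] (I : V → Type)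
    [∀ h, Fintype (I h)] (Pt : V → Type) (w : ∀ h, Pt h → ℤˣ → I h → Ω)
    (hw : ∀ (h : V) (ι : Type) [Finite ι] (a : ι → I h → Ω), (∀ k, a k ≠ 0) →
        ∃ p : Pt h, ∀ (k : ι) (s : ℤˣ), ∑ α : I h, a k α * w h p s α ≠ 0)
    [Fintype (∀ h, I h)] (a : (∀ h, I h) → Ω) (ha : a ≠ 0) :
    ∃ p : ∀ h, Pt h, ∀ s : V → ℤˣ, ∑ α : (∀ h, I h), a α * ∏ h, w h (p h) (s h) (α h) ≠ 0 := by
  classical
  let ev := Fintype.equivFin V
  let E : (∀ h, I h) ≃ ∀ k, I (ev.symm k) := Equiv.piCongrLeft' I ev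
  obtain ⟨p', hp'⟩ := nzt_choice Ω (Fintype.card V) (fun k => I (ev.symm k))
    (fun k => Pt (ev.symm k)) (fun k => w (ev.symm k))
    (fun k ι _ b hb => hw (ev.symm k) ι b hb) Unit (fun _ β => a (E.symm β)) (by
      intro _ h0
      apply ha
      ext α
      have := congrFun h0 (E α)
      simpa using this)
  refine ⟨(Equiv.piCongrLeft' Pt ev).symm p', fun s => ?_⟩
  have h1 := hp' () (fun k => s (ev.symm k))
  intro h2
  apply h1
  rw [← h2, ← E.symm.sum_comp]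
  refine Finset.sum_congr rfl fun β _ => ?_
  congr 1
  rw [← ev.symm.prod_comp]
  refine Finset.prod_congr rfl fun k _ => ?_
  have e1 : (Equiv.piCongrLeft' Pt ev).symm p' (ev.symm k) = p' k := by
    have := congrFun ((Equiv.piCongrLeft' Pt ev).apply_symm_apply p') k
    rw [Equiv.piCongrLeft'_apply] at this
    exact this
  have e2 : E.symm β (ev.symm k) = β k := by
    have := congrFun (E.apply_symm_apply β) k
    exact this
  rw [e1, e2]

/-- currying of the indices -/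
def cur (σ : Type) (n M : ℕ) (e : Fin n → ℕ) : (∀ j : Fin n, Ax σ M (e j)) ≃
    (∀ h : Fin n × σ, Fin (4 ^ e h.1) × Fin (M + 1)) where
  toFun f h := f h.1 h.2
  invFun g j i := g (j, i)
  left_inv _ := rfl
  right_inv _ := rfl

theorem t_NZHB (hN : NZV) : Pool.Agent.Helper68.VN.NZHB := by
  classical
  intro K _ _ σ _ _ W hW n M δ e c Ω _ _ _ X0 Ψ0 h0 hex
  have : CharZero Ω := charZero_of_injective_algebraMap (algebraMap K Ω).injective
  have hell : ∀ i, (mapS Ω W i).IsElliptic := fun i => by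
    have := hW i
    unfold mapS
    infer_instance
  obtain ⟨α0, hα0⟩ := hex
  let Pt : Fin n × σ → Type := fun h => {x : Ω × Ω // x.2 ^ 2 = Bf (mapS Ω W h.2) x.1}
  let w : ∀ h : Fin n × σ, Pt h → ℤˣ → Fin (4 ^ e h.1) × Fin (M + 1) → Ω :=
    fun h P s α => P.1.1 ^ α.1.val *
        ((law (mapS Ω W h.2) (e h.1) false P.1.1 (X0 h.2)
          (((s : ℤ) : Ω) * P.1.2 * Ψ0 h.2)).1 ^ (M - α.2.val) *
          (law (mapS Ω W h.2) (e h.1) false P.1.1 (X0 h.2)
          (((s : ℤ) : Ω) * P.1.2 * Ψ0 h.2)).2 ^ α.2.val)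
  obtain ⟨P, hP⟩ := choiceV Ω (Fin n × σ)
    (fun h => Fin (4 ^ e h.1) × Fin (M + 1)) Pt w
    (by
      intro h ι _ a ha
      have := hell h.2
      obtain ⟨Q, hQ0, hQ1, hQ2⟩ := nzt_pt (mapS Ω W h.2) (X0 h.2) (Ψ0 h.2) (h0 h.2)
      obtain ⟨P, hP0, hP⟩ := hN Ω (mapS Ω W h.2) Q (e h.1) M ι a hQ0 ha
      refine ⟨⟨(xc P, ps P), nzt_ps _ P hP0⟩, fun k s => ?_⟩
      have h1 := hP k s
      rw [hQ1, hQ2] at h1
      exact h1)
    (fun γ => ∑ β : σ → Fin δ, algebraMap K Ω (c ((cur σ n M e).symm γ, β)) * ∏ i,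
      X0 i ^ (β i).val)
    (by
      refine Function.ne_iff.mpr ⟨cur σ n M e α0, ?_⟩
      simpa using hα0)
  refine ⟨fun j i => (P (j, i)).1.1, fun j i => (P (j, i)).1.2,
    ⟨fun j i => (P (j, i)).2, h0⟩, ?_⟩
  intro ε h1
  apply hP ε
  rw [← h1]
  unfold P0B PB
  rw [Fintype.sum_prod_type, ← (cur σ n M e).sum_comp]
  refine Finset.sum_congr rfl fun α _ => ?_
  rw [Equiv.symm_apply_apply, Finset.sum_mul]
  refine Finset.sum_congr rfl fun β _ => ?_
  have h2 : (∏ h : Fin n × σ, w h (P h) (ε h) (cur σ n M e α h)) =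
      ∏ j, blkB (mapS Ω W) M (e j) ((fun _ _ => false : Fin n → σ → Bool) j)
        (fun i => (P (j, i)).1.1) (fun i => (((ε (j, i) : ℤˣ) : ℤ) : Ω) * (P (j, i)).1.2)
        X0 Ψ0 (α j) := by
    rw [Fintype.prod_prod_type]
    rfl
  rw [h2]
  ring

end Pool.Agent.Helper31.VN.NZHB
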